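import Pool.Agent.H98.Cyc11

set_option autoImplicit false

namespace Pool.Agent.Results.MP_ee94a4_gt.Cyclic

/-- the moment curve `(s, s^2, ..., s^d)` -/
noncomputable def gam (d : ℕ) (s : ℝ) : EuclideanSpace ℝ (Fin d) :=
  WithLp.toLp 2 (fun i : Fin d => s ^ ((i:ℕ)+1))

/-- the cyclic polytope with parameters `t` -/
def cyc (d : ℕ) {n : ℕ} (t : Fin n → ℝ) : Set (EuclideanSpace ℝ (Fin d)) :=
  convexHull ℝ (Set.range fun x => gam d (t x))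

/-- numbers `k` such that `K` is covered by `k` proper translates of itself -/
def CoverSizes {d : ℕ} (K : Set (EuclideanSpace ℝ (Fin d))) : Set ℕ :=
  {k | ∃ s : Fin k → EuclideanSpace ℝ (Fin d), (∀ i, s i ≠ 0) ∧ K ⊆ ⋃ i, (fun p => s i + p) '' K}

/-- every two vertices of the cyclic polytope form a 0-antipodal pair -/
def ZeroAnti (d : ℕ) {n : ℕ} (t : Fin n → ℝ) : Prop :=
  ∀ a b, a ≠ b → ∃ f : EuclideanSpace ℝ (Fin d) →L[ℝ] ℝ, ∀ z ∈ cyc d t,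
    (z ≠ gam d (t a) → f (gam d (t a)) < f z) ∧ (z ≠ gam d (t b) → f z < f (gam d (t b)))

theorem result (d : ℕ) (hd : 2 ≤ d) :
    IsGreatest {m : ℕ | ∃ (n : ℕ) (t : Fin n → ℝ), d + 1 ≤ n ∧ StrictMono t ∧
      IsLeast (CoverSizes (cyc d t)) m} (2 * d - 1) ∧
    IsGreatest {n : ℕ | ∃ t : Fin n → ℝ, d + 1 ≤ n ∧ StrictMono t ∧ ZeroAnti d t} (2 * d - 1) := by
  obtain ⟨m, rfl⟩ : ∃ m, d = m + 2 := ⟨d - 2, by omega⟩
  have up : ∀ (n : ℕ) (t : Fin n → ℝ), m + 2 + 1 ≤ n → StrictMono t →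
      ∃ k, k ≤ 2 * (m+2) - 1 ∧ k ∈ CoverSizes (cyc (m+2) t) := by
    intro n t hn ht
    have hK : IsCompact (cyc (m+2) t) := (Set.finite_range _).isCompact_convexHull ℝ
    obtain ⟨k, hk, h⟩ := Pool.Agent.H98.Cyc.proper_cover hK
      (Pool.Agent.H98.Cyc.momUB (m := m+1) (by omega) hn ht)
    exact ⟨k, by omega, h⟩
  have low : ∀ (n : ℕ) (t : Fin n → ℝ), ZeroAnti (m+2) t →
      ∀ k ∈ CoverSizes (cyc (m+2) t), n ≤ k := by
    rintro n t h k ⟨s, hs, hc⟩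
    exact Pool.Agent.H98.Cyc.anti_le (fun a => gam (m+2) (t a))
      (fun a => subset_convexHull ℝ _ (Set.mem_range_self (f := fun x => gam (m+2) (t x)) a))
      h s hs hc
  obtain ⟨t, ht, h⟩ := Pool.Agent.H98.Cyc.exAnti m
  have hn : m + 2 + 1 ≤ 2 * (m+2) - 1 := by omega
  refine ⟨⟨⟨_, t, hn, ht, ?_, low _ t h⟩, ?_⟩, ⟨t, hn, ht, h⟩, ?_⟩
  · obtain ⟨k, hk, hk2⟩ := up _ t hn ht
    have : k = 2 * (m+2) - 1 := le_antisymm hk (low _ t h k hk2)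
    exact this ▸ hk2
  · rintro j ⟨n, t', hn', ht', hj⟩
    obtain ⟨k, hk, hk2⟩ := up n t' hn' ht'
    exact (hj.2 hk2).trans hk
  · rintro n ⟨t', hn', ht', h'⟩
    obtain ⟨k, hk, hk2⟩ := up n t' hn' ht'
    exact (low n t' h' k hk2).trans hk

end Pool.Agent.Results.MP_ee94a4_gt.Cyclic
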